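import Mathlib

set_option autoImplicit false

namespace Pool.Agent.Results.MP_da62d3_al.AddInvolution

universe w

section Key

variable {G : Type w} [Group G]

lemma inv_of_sq {x : G} (h : x ^ 2 = 1) : x⁻¹ = x := by
  rw [inv_eq_iff_mul_eq_one, ← sq, h]

/-- An involution commutes with its conjugates under involutions. -/
lemma comm_conj (hG : ∀ x y : G, x ^ 2 = 1 → y ^ 2 = 1 → (x * y) ^ 4 = 1) {t u : G}
    (ht : t ^ 2 = 1) (hu : u ^ 2 = 1) : t * (u * t * u) = (u * t * u) * t := by
  have h4 := hG t u ht hu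
  have e : (t * u * t * u) * (t * u * t * u) = 1 := by
    rw [← h4]; simp [pow_succ, mul_assoc]
  have e2 : t * u * t * u = (t * u * t * u)⁻¹ := by
    rw [eq_inv_iff_mul_eq_one]; exact e
  have e3 : (t * u * t * u)⁻¹ = u * t * u * t := by
    simp [mul_inv_rev, inv_of_sq ht, inv_of_sq hu, mul_assoc]
  rw [e3] at e2
  simpa [mul_assoc] using e2

lemma comm_square (hG : ∀ x y : G, x ^ 2 = 1 → y ^ 2 = 1 → (x * y) ^ 4 = 1) {t u : G}
    (ht : t ^ 2 = 1) (hu : u ^ 2 = 1) : Commute u (t * u * t * u) := by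
  have h := comm_conj hG ht hu
  have huu : u * u = 1 := by rw [← sq, hu]
  show u * (t * u * t * u) = (t * u * t * u) * u
  calc u * (t * u * t * u) = (u * t * u) * t * u := by simp [mul_assoc]
    _ = t * (u * t * u) * u := by rw [h]
    _ = (t * u * t * u) * u := by simp [mul_assoc]

/-- The commutator of the conjugates of `t` under two involutions commutes with all three. -/
lemma key_comm (hG : ∀ x y : G, x ^ 2 = 1 → y ^ 2 = 1 → (x * y) ^ 4 = 1) {t u v : G}
    (ht : t ^ 2 = 1) (hu : u ^ 2 = 1) (hv : v ^ 2 = 1) :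
    Commute u ((u * t * u) * (v * t * v) * (u * t * u) * (v * t * v)) := by
  have htt : t * t = 1 := by rw [← sq, ht]
  have huu : u * u = 1 := by rw [← sq, hu]
  have hvv : v * v = 1 := by rw [← sq, hv]
  have hPP : (u * t * u) * (u * t * u) = 1 := by
    calc (u * t * u) * (u * t * u) = u * t * (u * u) * t * u := by simp [mul_assoc]
      _ = u * (t * t) * u := by rw [huu]; simp [mul_assoc]
      _ = 1 := by rw [htt]; simp [huu]
  have hQQ : (v * t * v) * (v * t * v) = 1 := by
    calc (v * t * v) * (v * t * v) = v * t * (v * v) * t * v := by simp [mul_assoc]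
      _ = v * (t * t) * v := by rw [hvv]; simp [mul_assoc]
      _ = 1 := by rw [htt]; simp [hvv]
  have htQ : t * (v * t * v) = (v * t * v) * t := comm_conj hG ht hv
  have hyy : (t * (v * t * v)) ^ 2 = 1 := by
    rw [sq]
    calc t * (v * t * v) * (t * (v * t * v)) = t * (v * t * v) * ((v * t * v) * t) := by rw [← htQ]
      _ = t * ((v * t * v) * (v * t * v)) * t := by simp only [mul_assoc]
      _ = 1 := by rw [hQQ]; simp [htt]
  have hx : Commute u (t * (u * t * u)) := by
    have := comm_square hG ht hu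
    simpa [mul_assoc] using this
  have hQ2 : (v * t * v) ^ 2 = 1 := by rw [sq]; exact hQQ
  generalize hQd : v * t * v = Q at *
  have hd : Commute u (Q * u * Q * u) := comm_square hG hQ2 hu
  have hc : Commute u ((t * Q) * u * (t * Q) * u) := comm_square hG hyy hu
  have hPd : ∀ z : G, (u * t * u) * ((u * t * u) * z) = z := by
    intro z; rw [← mul_assoc, hPP, one_mul]
  have hQz : ∀ z : G, Q * (Q * z) = z := by
    intro z; rw [← mul_assoc, hQQ, one_mul]
  have huz : ∀ z : G, u * (u * z) = z := by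
    intro z; rw [← mul_assoc, huu, one_mul]
  have e : (t * (u * t * u)) * ((u * t * u) * Q * (u * t * u) * Q) * (Q * u * Q * u)
      = (t * Q) * u * (t * Q) * u := by
    calc (t * (u * t * u)) * ((u * t * u) * Q * (u * t * u) * Q) * (Q * u * Q * u)
        = t * ((u * t * u) * ((u * t * u) * (Q * ((u * t * u) * (Q * (Q * (u * (Q * u)))))))) := by
          simp only [mul_assoc]
      _ = t * (Q * ((u * t * u) * (u * (Q * u)))) := by rw [hPd, hQz]
      _ = t * (Q * (u * (t * (u * (u * (Q * u)))))) := by simp only [mul_assoc]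
      _ = t * (Q * (u * (t * (Q * u)))) := by rw [huz]
      _ = (t * Q) * u * (t * Q) * u := by simp only [mul_assoc]
  have e2 : (u * t * u) * Q * (u * t * u) * Q
      = (t * (u * t * u))⁻¹ * ((t * Q) * u * (t * Q) * u) * (Q * u * Q * u)⁻¹ := by
    rw [← e]; group
  rw [e2]
  exact (hx.inv_right.mul_right hc).mul_right hd.inv_right

end Key

section Fin

variable {G : Type w} [Group G]

/-- `g` normalises `F` (both directions). -/
def Nrm (F : Subgroup G) (g : G) : Prop :=
  (∀ f ∈ F, g * f * g⁻¹ ∈ F) ∧ (∀ f ∈ F, g⁻¹ * f * g ∈ F)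

lemma Nrm.closure {F : Subgroup G} {X : Set G} (h : ∀ x ∈ X, Nrm F x) {g : G}
    (hg : g ∈ Subgroup.closure X) : Nrm F g := by
  induction hg using Subgroup.closure_induction with
  | mem x hx => exact h x hx
  | one => constructor <;> intro f hf <;> simpa using hf
  | mul a b _ _ ha hb =>
    constructor
    · intro f hf
      have := ha.1 _ (hb.1 f hf)
      simpa [mul_assoc] using this
    · intro f hf
      have := hb.2 _ (ha.2 f hf)
      simpa [mul_assoc] using this
  | inv a _ ha =>
    constructor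
    · intro f hf
      simpa using ha.2 f hf
    · intro f hf
      simpa using ha.1 f hf

lemma Nrm.of_gen {S : Set G} {x : G}
    (h : ∀ y ∈ S, x * y * x⁻¹ ∈ Subgroup.closure S ∧ x⁻¹ * y * x ∈ Subgroup.closure S) :
    Nrm (Subgroup.closure S) x := by
  constructor
  · intro f hf
    induction hf using Subgroup.closure_induction with
    | mem y hy => exact (h y hy).1
    | one => simp
    | mul a b _ _ ha hb =>
      have := mul_mem ha hb
      have e : x * (a * b) * x⁻¹ = (x * a * x⁻¹) * (x * b * x⁻¹) := by group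
      rw [e]; exact this
    | inv a _ ha =>
      have e : x * a⁻¹ * x⁻¹ = (x * a * x⁻¹)⁻¹ := by group
      rw [e]; exact inv_mem ha
  · intro f hf
    induction hf using Subgroup.closure_induction with
    | mem y hy => exact (h y hy).2
    | one => simp
    | mul a b _ _ ha hb =>
      have := mul_mem ha hb
      have e : x⁻¹ * (a * b) * x = (x⁻¹ * a * x) * (x⁻¹ * b * x) := by group
      rw [e]; exact this
    | inv a _ ha =>
      have e : x⁻¹ * a⁻¹ * x = (x⁻¹ * a * x)⁻¹ := by group
      rw [e]; exact inv_mem ha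

lemma sup_elem {F K : Subgroup G} (h : ∀ k ∈ K, ∀ f ∈ F, k * f * k⁻¹ ∈ F) {g : G}
    (hg : g ∈ F ⊔ K) : ∃ f ∈ F, ∃ k ∈ K, g = f * k := by
  rw [← Subgroup.closure_eq F, ← Subgroup.closure_eq K, ← Subgroup.closure_union] at hg
  induction hg using Subgroup.closure_induction with
  | mem x hx =>
    rcases hx with hx | hx
    · exact ⟨x, hx, 1, one_mem _, by simp⟩
    · exact ⟨1, one_mem _, x, hx, by simp⟩
  | one => exact ⟨1, one_mem _, 1, one_mem _, by simp⟩
  | mul a b _ _ ha hb =>
    obtain ⟨f, hf, k, hk, rfl⟩ := ha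
    obtain ⟨f', hf', k', hk', rfl⟩ := hb
    exact ⟨f * (k * f' * k⁻¹), mul_mem hf (h k hk f' hf'), k * k', mul_mem hk hk', by group⟩
  | inv a _ ha =>
    obtain ⟨f, hf, k, hk, rfl⟩ := ha
    refine ⟨k⁻¹ * f⁻¹ * (k⁻¹)⁻¹, h _ (inv_mem hk) _ (inv_mem hf), k⁻¹, inv_mem hk, by group⟩

lemma finite_sup {F K : Subgroup G} (hF : Finite F) (hK : Finite K)
    (h : ∀ k ∈ K, ∀ f ∈ F, k * f * k⁻¹ ∈ F) : Finite ↥(F ⊔ K) := by
  have hF' : (F : Set G).Finite := Set.toFinite _
  have hK' : (K : Set G).Finite := Set.toFinite _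
  have : ((F ⊔ K : Subgroup G) : Set G).Finite := by
    refine (Set.Finite.image2 (fun a b => a * b) hF' hK').subset ?_
    intro g hg
    obtain ⟨f, hf, k, hk, rfl⟩ := sup_elem h hg
    exact ⟨f, hf, k, hk, rfl⟩
  exact this.to_subtype

lemma step {S : Set G} {x : G} (hS : Finite (Subgroup.closure S)) (hx : IsOfFinOrder x)
    (h : ∀ y ∈ S, x * y * x⁻¹ ∈ Subgroup.closure S ∧ x⁻¹ * y * x ∈ Subgroup.closure S) :
    Finite (Subgroup.closure (insert x S)) := by
  have hn := Nrm.of_gen h
  have hK : Finite (Subgroup.closure ({x} : Set G)) := by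
    rw [← Subgroup.zpowers_eq_closure]
    exact (finite_zpowers.2 hx).to_subtype
  have := finite_sup hS hK (fun k hk f hf =>
    (Nrm.closure (X := {x}) (by intro y hy; rw [Set.mem_singleton_iff] at hy; rw [hy]; exact hn)
      hk).1 f hf)
  rw [← Subgroup.closure_union] at this
  rwa [Set.insert_eq, Set.union_comm]

lemma finite_comm {S : Set G} (hS : S.Finite) (hfin : ∀ x ∈ S, IsOfFinOrder x)
    (hc : ∀ x ∈ S, ∀ y ∈ S, Commute x y) : Finite (Subgroup.closure S) := by
  induction S, hS using Set.Finite.induction_on with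
  | empty => rw [Subgroup.closure_empty]; infer_instance
  | @insert x S _ _ ih =>
    refine step (ih (fun y hy => hfin y (Set.mem_insert_of_mem _ hy))
      (fun y hy z hz => hc y (Set.mem_insert_of_mem _ hy) z (Set.mem_insert_of_mem _ hz)))
      (hfin x (Set.mem_insert _ _)) ?_
    intro y hy
    have hxy := hc x (Set.mem_insert _ _) y (Set.mem_insert_of_mem _ hy)
    have e1 : x * y * x⁻¹ = y := by rw [hxy.eq]; simp
    have e2 : x⁻¹ * y * x = y := by rw [mul_assoc, ← hxy.eq]; simp
    rw [e1, e2]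
    exact ⟨Subgroup.subset_closure hy, Subgroup.subset_closure hy⟩

lemma finite_class2 {E T : Set G} (hE : E.Finite) (hT : T.Finite)
    (hE2 : ∀ e ∈ E, e ^ 2 = 1) (hT2 : ∀ x ∈ T, x ^ 2 = 1)
    (hEE : ∀ e ∈ E, ∀ f ∈ E, Commute e f) (hET : ∀ e ∈ E, ∀ x ∈ T, Commute e x)
    (hTT : ∀ x ∈ T, ∀ y ∈ T, ∃ e ∈ E, x * y * x⁻¹ = y * e) :
    Finite (Subgroup.closure (E ∪ T)) := by
  have fo : ∀ x : G, x ^ 2 = 1 → IsOfFinOrder x := fun x hx =>
    isOfFinOrder_iff_pow_eq_one.2 ⟨2, by norm_num, hx⟩
  have key : ∀ S : Set G, S.Finite → S ⊆ T → Finite (Subgroup.closure (E ∪ S)) := by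
    intro S hS
    induction S, hS using Set.Finite.induction_on with
    | empty =>
      intro _
      rw [Set.union_empty]
      exact finite_comm hE (fun x hx => fo x (hE2 x hx)) hEE
    | @insert x S _ _ ih =>
      intro hST
      have hxT : x ∈ T := hST (Set.mem_insert _ _)
      have ih' := ih (fun y hy => hST (Set.mem_insert_of_mem _ hy))
      rw [Set.union_insert]
      refine step ih' (fo x (hT2 x hxT)) ?_
      have hxi : x⁻¹ = x := by
        rw [inv_eq_iff_mul_eq_one, ← sq, hT2 x hxT]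
      have aux : ∀ y ∈ E ∪ S, x * y * x⁻¹ ∈ Subgroup.closure (E ∪ S) := by
        intro y hy
        rcases hy with hy | hy
        · have hxy := (hET y hy x hxT).symm
          have e1 : x * y * x⁻¹ = y := by rw [hxy.eq]; simp
          rw [e1]
          exact Subgroup.subset_closure (Or.inl hy)
        · obtain ⟨e, he, h⟩ := hTT x hxT y (hST (Set.mem_insert_of_mem _ hy))
          rw [h]
          exact mul_mem (Subgroup.subset_closure (Or.inr hy)) (Subgroup.subset_closure (Or.inl he))
      intro y hy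
      refine ⟨aux y hy, ?_⟩
      have := aux y hy
      rw [hxi] at this ⊢
      exact this
  exact key T hT (le_refl _)

end Fin

section Main

variable {G : Type w} [Group G]

/-- The commutator of `t` with its conjugate under `k`. -/
def com (t k : G) : G := t * (k * t * k⁻¹) * t⁻¹ * (k * t * k⁻¹)⁻¹

lemma com_eq {t : G} (ht : t ^ 2 = 1) (k : G) :
    com t k = t * (k * t * k⁻¹) * t * (k * t * k⁻¹) := by
  have h1 := inv_of_sq ht
  have h2 : (k * t * k⁻¹)⁻¹ = k * t * k⁻¹ := by
    rw [mul_inv_rev, mul_inv_rev, inv_inv, h1, mul_assoc]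
  rw [com, h1, h2]

lemma conj_sq {t : G} (ht : t ^ 2 = 1) (k : G) : (k * t * k⁻¹) ^ 2 = 1 := by
  rw [conj_pow, ht]; simp

lemma com_sq (hG : ∀ x y : G, x ^ 2 = 1 → y ^ 2 = 1 → (x * y) ^ 4 = 1) {t : G}
    (ht : t ^ 2 = 1) (k : G) : com t k ^ 2 = 1 := by
  rw [com_eq ht]
  have := hG t (k * t * k⁻¹) ht (conj_sq ht k)
  rw [← this]
  generalize k * t * k⁻¹ = X
  simp [pow_succ, mul_assoc]

lemma com_of_sq (hG : ∀ x y : G, x ^ 2 = 1 → y ^ 2 = 1 → (x * y) ^ 4 = 1) {t k : G}
    (ht : t ^ 2 = 1) (hk : k ^ 2 = 1) : com t k = 1 := by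
  have h := comm_conj hG ht hk
  rw [com, inv_of_sq hk, h]
  group

/-- If `v` and `v * k` are involutions (or `1`) then `v` and `t` commute with `[t, t^k]`. -/
lemma com_comm (hG : ∀ x y : G, x ^ 2 = 1 → y ^ 2 = 1 → (x * y) ^ 4 = 1) {t k v : G}
    (ht : t ^ 2 = 1) (hv : v ^ 2 = 1) (hvk : (v * k) ^ 2 = 1) :
    Commute v (com t k) ∧ Commute t (com t k) := by
  have hvv : v * v = 1 := by rw [← sq, hv]
  have hk1 := key_comm hG ht hv hvk
  have hP := comm_conj hG ht hv
  have hQ := comm_conj hG ht hvk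
  have hki : k⁻¹ = (v * k) * v := by
    rw [inv_eq_iff_mul_eq_one]
    have : (v * k) * (v * k) = 1 := by rw [← sq, hvk]
    calc k * (v * k * v) = v * ((v * k) * (v * k)) * v := by
          rw [show v * ((v * k) * (v * k)) * v = (v * v) * (k * (v * k * v)) by
            simp only [mul_assoc], hvv, one_mul]
      _ = 1 := by rw [this, mul_one, hvv]
  have hX : k * t * k⁻¹ = v * ((v * k) * t * (v * k)) * v := by
    rw [hki]
    calc k * t * (v * k * v) = (v * v) * k * t * (v * k * v) := by rw [hvv, one_mul]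
      _ = v * ((v * k) * t * (v * k)) * v := by simp only [mul_assoc]
  have e : com t k = v * ((v * t * v) * ((v * k) * t * (v * k)) * (v * t * v) *
      ((v * k) * t * (v * k))) * v := by
    rw [com_eq ht, hX]
    generalize (v * k) * t * (v * k) = Q
    have hz : ∀ z : G, v * (v * z) = z := by
      intro z; rw [← mul_assoc, hvv, one_mul]
    simp only [mul_assoc, hz]
  have e2 : com t k = (v * t * v) * ((v * k) * t * (v * k)) * (v * t * v) *
      ((v * k) * t * (v * k)) := by
    rw [e, hk1.eq, mul_assoc, hvv, mul_one]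
  rw [e2]
  refine ⟨hk1, ?_⟩
  have c1 : Commute t (v * t * v) := hP
  have c2 : Commute t ((v * k) * t * (v * k)) := hQ
  exact ((c1.mul_right c2).mul_right c1).mul_right c2

/-- Finitely many elements of `H` generate a finite subgroup. -/
def LocFin (H : Subgroup G) : Prop :=
  ∀ S : Finset G, (S : Set G) ⊆ H → Finite (Subgroup.closure (S : Set G))

/-- For every `k` in `K` with `k ^ 2 ≠ 1`, the elements `v` of `K` with `v ^ 2 = (v * k) ^ 2 = 1`
generate `K`. -/
def InvGen (K : Subgroup G) : Prop :=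
  ∀ k ∈ K, k ^ 2 ≠ 1 → K ≤ Subgroup.closure {v : G | v ∈ K ∧ v ^ 2 = 1 ∧ (v * k) ^ 2 = 1}

/-- The elements commuting with `K` and `t`. -/
def Cen (K : Subgroup G) (t c : G) : Prop := (∀ a ∈ K, Commute a c) ∧ Commute t c

lemma Cen.closure {K : Subgroup G} {t c : G} (h : Cen K t c) {g : G}
    (hg : g ∈ Subgroup.closure ((K : Set G) ∪ {t})) : Commute g c := by
  induction hg using Subgroup.closure_induction with
  | mem x hx =>
    rcases hx with hx | hx
    · exact h.1 x hx
    · rw [Set.mem_singleton_iff] at hx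
      rw [hx]; exact h.2
  | one => exact Commute.one_left _
  | mul a b _ _ ha hb => exact ha.mul_left hb
  | inv a _ ha => exact ha.inv_left

lemma Cen.mul {K : Subgroup G} {t c d : G} (h : Cen K t c) (h' : Cen K t d) : Cen K t (c * d) :=
  ⟨fun a ha => (h.1 a ha).mul_right (h'.1 a ha), h.2.mul_right h'.2⟩

lemma Cen.one (K : Subgroup G) (t : G) : Cen K t (1 : G) :=
  ⟨fun a _ => Commute.one_right a, Commute.one_right _⟩

lemma com_cen (hG : ∀ x y : G, x ^ 2 = 1 → y ^ 2 = 1 → (x * y) ^ 4 = 1)
    {K : Subgroup G} {t : G} (hK : InvGen K) (ht : t ^ 2 = 1) {k : G} (hk : k ∈ K) :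
    Cen K t (com t k) := by
  by_cases hk2 : k ^ 2 = 1
  · rw [com_of_sq hG ht hk2]
    exact Cen.one K t
  · have hle := hK k hk hk2
    have main : ∀ g ∈ Subgroup.closure {v : G | v ∈ K ∧ v ^ 2 = 1 ∧ (v * k) ^ 2 = 1},
        Commute g (com t k) := by
      intro g hg
      induction hg using Subgroup.closure_induction with
      | mem x hx => exact (com_comm hG ht hx.2.1 hx.2.2).1
      | one => exact Commute.one_left _
      | mul a b _ _ ha hb => exact ha.mul_left hb
      | inv a _ ha => exact ha.inv_left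
    refine ⟨fun a ha => main a (hle ha), ?_⟩
    rcases Set.eq_empty_or_nonempty {v : G | v ∈ K ∧ v ^ 2 = 1 ∧ (v * k) ^ 2 = 1} with h0 | ⟨v, hv⟩
    · exfalso
      have h1 := hle hk
      rw [h0, Subgroup.closure_empty, Subgroup.mem_bot] at h1
      exact hk2 (by rw [h1]; simp)
    · exact (com_comm hG ht hv.2.1 hv.2.2).2

lemma conj_mul_conj (t k l : G) (ht : t ^ 2 = 1) :
    (k * t * k⁻¹) * (l * t * l⁻¹) * (k * t * k⁻¹)⁻¹
      = (l * t * l⁻¹) * (l * com t (l⁻¹ * k) * l⁻¹) := by
  have h1 := inv_of_sq ht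
  have h2 : (k * t * k⁻¹)⁻¹ = k * t * k⁻¹ := by
    rw [mul_inv_rev, mul_inv_rev, inv_inv, h1, mul_assoc]
  rw [com_eq ht, h2]
  have e : l * (t * (l⁻¹ * k * t * (l⁻¹ * k)⁻¹) * t * (l⁻¹ * k * t * (l⁻¹ * k)⁻¹)) * l⁻¹
      = (l * t * l⁻¹) * (k * t * k⁻¹) * (l * t * l⁻¹) * (k * t * k⁻¹) := by group
  rw [e]
  have hll : (l * t * l⁻¹) * (l * t * l⁻¹) = 1 := by
    rw [← sq, conj_sq ht]
  generalize l * t * l⁻¹ = y at *
  generalize k * t * k⁻¹ = x at *
  calc x * y * x = (y * y) * x * y * x := by rw [hll, one_mul]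
    _ = y * (y * x * y * x) := by simp only [mul_assoc]

/-- Finite case. -/
lemma finite_case (hG : ∀ x y : G, x ^ 2 = 1 → y ^ 2 = 1 → (x * y) ^ 4 = 1)
    (K : Subgroup G) (t : G) (ht : t ^ 2 = 1) (hKf : Finite K)
    (hcen : ∀ k ∈ K, Cen K t (com t k)) : Finite (Subgroup.closure ((K : Set G) ∪ {t})) := by
  have hK : (K : Set G).Finite := Set.toFinite _
  set E : Set G := (fun k => com t k) '' (K : Set G) with hE
  set T : Set G := (fun k => k * t * k⁻¹) '' (K : Set G) with hT
  have cenE : ∀ e ∈ E, Cen K t e := by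
    rintro _ ⟨k, hk, rfl⟩
    exact hcen k hk
  have hKsub : K ≤ Subgroup.closure ((K : Set G) ∪ {t}) := fun x hx =>
    Subgroup.subset_closure (Or.inl hx)
  have htm : t ∈ Subgroup.closure ((K : Set G) ∪ {t}) :=
    Subgroup.subset_closure (Or.inr rfl)
  have hTsub : ∀ x ∈ T, x ∈ Subgroup.closure ((K : Set G) ∪ {t}) := by
    rintro _ ⟨k, hk, rfl⟩
    exact mul_mem (mul_mem (hKsub hk) htm) (inv_mem (hKsub hk))
  have hEsub : ∀ x ∈ E, x ∈ Subgroup.closure ((K : Set G) ∪ {t}) := by
    rintro _ ⟨k, hk, rfl⟩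
    have h1 := hTsub _ ⟨k, hk, rfl⟩
    exact mul_mem (mul_mem (mul_mem htm h1) (inv_mem htm)) (inv_mem h1)
  have hV : Finite (Subgroup.closure (E ∪ T)) := by
    refine finite_class2 (hK.image _) (hK.image _) ?_ ?_ ?_ ?_ ?_
    · rintro _ ⟨k, hk, rfl⟩
      exact com_sq hG ht k
    · rintro _ ⟨k, hk, rfl⟩
      exact conj_sq ht k
    · intro e he f hf
      exact ((cenE e he).closure (hEsub f hf)).symm
    · intro e he x hx
      exact ((cenE e he).closure (hTsub x hx)).symm
    · rintro _ ⟨k, hk, rfl⟩ _ ⟨l, hl, rfl⟩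
      refine ⟨com t (l⁻¹ * k), ⟨l⁻¹ * k, mul_mem (inv_mem hl) hk, rfl⟩, ?_⟩
      have h1 := conj_mul_conj t k l ht
      have h2 : Commute l (com t (l⁻¹ * k)) := (hcen _ (mul_mem (inv_mem hl) hk)).1 l hl
      show (k * t * k⁻¹) * (l * t * l⁻¹) * (k * t * k⁻¹)⁻¹ = _
      rw [h1, h2.eq]
      simp [mul_assoc]
  have hN : ∀ k ∈ K, ∀ f ∈ Subgroup.closure (E ∪ T), k * f * k⁻¹ ∈ Subgroup.closure (E ∪ T) := by
    intro k hk f hf
    induction hf using Subgroup.closure_induction with
    | mem x hx =>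
      rcases hx with hx | hx
      · have := (cenE x hx).1 k hk
        rw [this.eq, mul_assoc, mul_inv_cancel, mul_one]
        exact Subgroup.subset_closure (Or.inl hx)
      · obtain ⟨l, hl, rfl⟩ := hx
        apply Subgroup.subset_closure
        right
        exact ⟨k * l, mul_mem hk hl, by group⟩
    | one => simp
    | mul a b _ _ ha hb =>
      have e : k * (a * b) * k⁻¹ = (k * a * k⁻¹) * (k * b * k⁻¹) := by group
      rw [e]; exact mul_mem ha hb
    | inv a _ ha =>
      have e : k * a⁻¹ * k⁻¹ = (k * a * k⁻¹)⁻¹ := by group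
      rw [e]; exact inv_mem ha
  have hfinal := finite_sup hV hKf hN
  have hle : Subgroup.closure ((K : Set G) ∪ {t}) ≤ Subgroup.closure (E ∪ T) ⊔ K := by
    rw [Subgroup.closure_le]
    intro x hx
    rcases hx with hx | hx
    · exact Subgroup.mem_sup_right hx
    · rw [Set.mem_singleton_iff] at hx
      rw [hx]
      refine Subgroup.mem_sup_left (Subgroup.subset_closure (Or.inr ⟨1, one_mem _, ?_⟩))
      simp
  exact Finite.of_injective _ (Subgroup.inclusion_injective hle)

/-- An element of the closure lies in the closure of a finite part. -/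
lemma exists_fin {X Y : Set G} {g : G} (hg : g ∈ Subgroup.closure (X ∪ Y)) :
    ∃ B : Set G, B.Finite ∧ B ⊆ X ∧ g ∈ Subgroup.closure (B ∪ Y) := by
  induction hg using Subgroup.closure_induction with
  | mem x hx =>
    rcases hx with hx | hx
    · exact ⟨{x}, Set.finite_singleton x, by simpa using hx, Subgroup.subset_closure (Or.inl rfl)⟩
    · exact ⟨∅, Set.finite_empty, Set.empty_subset _, Subgroup.subset_closure (Or.inr hx)⟩
  | one => exact ⟨∅, Set.finite_empty, Set.empty_subset _, one_mem _⟩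
  | mul a b _ _ ha hb =>
    obtain ⟨B, hB, hBA, h1⟩ := ha
    obtain ⟨B', hB', hBA', h2⟩ := hb
    refine ⟨B ∪ B', hB.union hB', Set.union_subset hBA hBA', mul_mem ?_ ?_⟩
    · exact Subgroup.closure_mono (Set.union_subset_union_left _ Set.subset_union_left) h1
    · exact Subgroup.closure_mono (Set.union_subset_union_left _ Set.subset_union_right) h2
  | inv a _ ha =>
    obtain ⟨B, hB, hBA, h1⟩ := ha
    exact ⟨B, hB, hBA, inv_mem h1⟩

lemma exists_fin_set {X Y : Set G} (S : Finset G) (hS : (S : Set G) ⊆ Subgroup.closure (X ∪ Y)) :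
    ∃ B : Set G, B.Finite ∧ B ⊆ X ∧ (S : Set G) ⊆ Subgroup.closure (B ∪ Y) := by
  classical
  induction S using Finset.induction_on with
  | empty => exact ⟨∅, Set.finite_empty, Set.empty_subset _, by simp⟩
  | insert x S _ ih =>
    rw [Finset.coe_insert] at hS
    obtain ⟨B, hB, hBA, h1⟩ := ih (fun y hy => hS (Set.mem_insert_of_mem _ hy))
    obtain ⟨B', hB', hBA', h2⟩ := exists_fin (hS (Set.mem_insert _ _))
    refine ⟨B ∪ B', hB.union hB', Set.union_subset hBA hBA', ?_⟩
    rw [Finset.coe_insert]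
    intro y hy
    rcases hy with rfl | hy
    · exact Subgroup.closure_mono (Set.union_subset_union_left _ Set.subset_union_right) h2
    · exact Subgroup.closure_mono (Set.union_subset_union_left _ Set.subset_union_left) (h1 hy)

/-- Conjugates of `t` in the whole group are conjugates under `K` up to central elements. -/
lemma conj_form {K : Subgroup G} {t : G} (ht : t ^ 2 = 1)
    (hcen : ∀ k ∈ K, Cen K t (com t k)) {g : G}
    (hg : g ∈ Subgroup.closure ((K : Set G) ∪ {t})) :
    ∃ k ∈ K, ∃ c : G, Cen K t c ∧ g * t * g⁻¹ = k * t * k⁻¹ * c := by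
  have h1 := inv_of_sq ht
  have stepK : ∀ x ∈ K, ∀ y : G,
      (∃ k ∈ K, ∃ c : G, Cen K t c ∧ y * t * y⁻¹ = k * t * k⁻¹ * c) →
      (∃ k ∈ K, ∃ c : G, Cen K t c ∧ (x * y) * t * (x * y)⁻¹ = k * t * k⁻¹ * c) := by
    rintro x hx y ⟨k, hk, c, hc, e⟩
    refine ⟨x * k, mul_mem hx hk, c, hc, ?_⟩
    have hxc : Commute x c := hc.1 x hx
    calc (x * y) * t * (x * y)⁻¹ = x * (y * t * y⁻¹) * x⁻¹ := by group
      _ = x * (k * t * k⁻¹) * (c * x⁻¹) := by rw [e]; simp only [mul_assoc]
      _ = x * (k * t * k⁻¹) * (x⁻¹ * c) := by rw [(hxc.inv_left).eq]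
      _ = (x * k) * t * (x * k)⁻¹ * c := by group
  have stepT : ∀ y : G,
      (∃ k ∈ K, ∃ c : G, Cen K t c ∧ y * t * y⁻¹ = k * t * k⁻¹ * c) →
      (∃ k ∈ K, ∃ c : G, Cen K t c ∧ (t * y) * t * (t * y)⁻¹ = k * t * k⁻¹ * c) := by
    rintro y ⟨k, hk, c, hc, e⟩
    have hs := hcen k hk
    refine ⟨k, hk, com t k * c, hs.mul hc, ?_⟩
    have hkc : Commute (k * t * k⁻¹) (com t k) := by
      have h3 : Commute k (com t k) := hs.1 k hk
      exact (h3.mul_left hs.2).mul_left h3.inv_left
    have htc : Commute t c := hc.2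
    calc (t * y) * t * (t * y)⁻¹ = t * (y * t * y⁻¹) * t⁻¹ := by group
      _ = t * (k * t * k⁻¹) * (c * t⁻¹) := by rw [e]; simp only [mul_assoc]
      _ = t * (k * t * k⁻¹) * (t⁻¹ * c) := by rw [(htc.inv_left).eq]
      _ = com t k * (k * t * k⁻¹) * c := by rw [com]; group
      _ = (k * t * k⁻¹) * com t k * c := by rw [hkc.eq]
      _ = k * t * k⁻¹ * (com t k * c) := by simp only [mul_assoc]
  induction hg using Subgroup.closure_induction_left with
  | one => exact ⟨1, one_mem _, 1, Cen.one K t, by simp⟩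
  | mul_left x hx y _ ih =>
    rcases hx with hx | hx
    · exact stepK x hx y ih
    · rw [Set.mem_singleton_iff] at hx
      rw [hx]; exact stepT y ih
  | inv_mul_cancel x hx y _ ih =>
    rcases hx with hx | hx
    · exact stepK x⁻¹ (inv_mem hx) y ih
    · rw [Set.mem_singleton_iff] at hx
      rw [hx, h1]; exact stepT y ih

/-- The elements of the group generated by `A` and `u` lie in `A` or in `u A`. -/
lemma K_cases (A : Subgroup G) (u : G) (hu : u ^ 2 = 1) (hinv : ∀ a ∈ A, u * a * u⁻¹ = a⁻¹) {k : G}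
    (hk : k ∈ Subgroup.closure ((A : Set G) ∪ {u})) : k ∈ A ∨ u * k ∈ A := by
  have huu : u * u = 1 := by rw [← sq, hu]
  have hui := inv_of_sq hu
  induction hk using Subgroup.closure_induction with
  | mem x hx =>
    rcases hx with hx | hx
    · exact Or.inl hx
    · rw [Set.mem_singleton_iff] at hx
      right; rw [hx, huu]; exact one_mem _
  | one => exact Or.inl (one_mem _)
  | mul a b _ _ ha hb =>
    rcases ha with ha | ha <;> rcases hb with hb | hb
    · exact Or.inl (mul_mem ha hb)
    · right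
      have e : u * (a * b) = (u * a * u⁻¹) * (u * b) := by group
      rw [e, hinv a ha]
      exact mul_mem (inv_mem ha) hb
    · right
      rw [← mul_assoc]; exact mul_mem ha hb
    · left
      have e : a * b = (u * (u * a) * u⁻¹) * (u * b) := by
        calc a * b = (u * u) * a * (u⁻¹ * u) * b := by rw [huu]; group
          _ = (u * (u * a) * u⁻¹) * (u * b) := by simp only [mul_assoc]
      rw [e, hinv _ ha]
      exact mul_mem (inv_mem ha) hb
  | inv a _ ha =>
    rcases ha with ha | ha
    · exact Or.inl (inv_mem ha)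
    · right
      have e : u * a⁻¹ = u * (u * a)⁻¹ * u⁻¹ := by
        rw [mul_inv_rev, hui]
        calc u * a⁻¹ = u * a⁻¹ * (u * u) := by rw [huu, mul_one]
          _ = u * (a⁻¹ * u) * u := by simp only [mul_assoc]
      rw [e, hinv _ (inv_mem ha), inv_inv]
      exact ha

lemma sq_of_mem (A : Subgroup G) (u : G) (hu : u ^ 2 = 1) (hinv : ∀ a ∈ A, u * a * u⁻¹ = a⁻¹)
    {k : G} (hk : u * k ∈ A) : k ^ 2 = 1 := by
  have huu : u * u = 1 := by rw [← sq, hu]
  have h := hinv _ hk
  rw [inv_of_sq hu] at h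
  have h2 : u * (u * k) * u = k * u := by rw [← mul_assoc, huu, one_mul]
  rw [h2, mul_inv_rev, inv_of_sq hu] at h
  have h3 : k = k⁻¹ := mul_right_cancel h
  rw [sq]
  nth_rewrite 2 [h3]
  exact mul_inv_cancel k

/-- Let `G` be a group in which `(x * y) ^ 4 = 1` whenever `x ^ 2 = y ^ 2 = 1`.
(1) If `K` is a locally finite subgroup such that for every `k` in `K` with `k ^ 2 ≠ 1` the
elements `v` of `K` with `v ^ 2 = (v * k) ^ 2 = 1` generate `K`, and `t ^ 2 = 1`, then the subgroup
`H` generated by `K` and `t` is locally finite, and the commutator `(t * t ^ g) ^ 2` of `t` with any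
conjugate of it in `H` is central in `H`.
(2) Every subgroup `K` generated by an abelian subgroup `A` and an element `u` with `u ^ 2 = 1`
that inverts `A` is such a subgroup. -/
theorem result {G : Type w} [Group G]
    (hG : ∀ x y : G, x ^ 2 = 1 → y ^ 2 = 1 → (x * y) ^ 4 = 1) :
    (∀ (K : Subgroup G) (t : G), InvGen K → LocFin K → t ^ 2 = 1 →
      ∀ H : Subgroup G, H = Subgroup.closure ((K : Set G) ∪ {t}) →
        LocFin H ∧ ∀ g ∈ H, ∀ h ∈ H,
          h * (t * (g * t * g⁻¹)) ^ 2 = (t * (g * t * g⁻¹)) ^ 2 * h) ∧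
    (∀ (A : Subgroup G) (u : G), (∀ a ∈ A, ∀ b ∈ A, a * b = b * a) → u ^ 2 = 1 →
      (∀ a ∈ A, u * a * u⁻¹ = a⁻¹) →
      ∀ K : Subgroup G, K = Subgroup.closure ((A : Set G) ∪ {u}) → InvGen K ∧ LocFin K) := by
  refine ⟨?_, ?_⟩
  · rintro K t hK hlf ht H rfl
    have hcen : ∀ k ∈ K, Cen K t (com t k) := fun k hk => com_cen hG hK ht hk
    refine ⟨?_, ?_⟩
    · intro S hS
      obtain ⟨B, hB, hBK, hSB⟩ := exists_fin_set S hS
      have hBle : Subgroup.closure B ≤ K := by rw [Subgroup.closure_le]; exact hBK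
      have hBf : Finite (Subgroup.closure B) := by
        have := hlf hB.toFinset (by simpa using hBK)
        simpa using this
      have hfin := finite_case hG (Subgroup.closure B) t ht hBf
        (fun k hk => ⟨fun a ha => (hcen k (hBle hk)).1 a (hBle ha), (hcen k (hBle hk)).2⟩)
      have hle : Subgroup.closure (S : Set G) ≤
          Subgroup.closure (((Subgroup.closure B : Subgroup G) : Set G) ∪ {t}) := by
        rw [Subgroup.closure_le]
        intro x hx
        exact Subgroup.closure_mono (Set.union_subset_union_left _ Subgroup.subset_closure) (hSB hx)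
      exact Finite.of_injective _ (Subgroup.inclusion_injective hle)
    · intro g hg h hh
      obtain ⟨k, hk, c, hc, e⟩ := conj_form ht hcen hg
      have hs := hcen k hk
      have hsq : (t * (g * t * g⁻¹)) ^ 2 = com t g := by
        rw [com_eq ht, sq]; simp only [mul_assoc]
      have hcom : com t g = com t k := by
        rw [com, e, com]
        have htc : Commute t c := hc.2
        calc t * (k * t * k⁻¹ * c) * t⁻¹ * (k * t * k⁻¹ * c)⁻¹
            = t * (k * t * k⁻¹) * (c * t⁻¹) * c⁻¹ * (k * t * k⁻¹)⁻¹ := by group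
          _ = t * (k * t * k⁻¹) * (t⁻¹ * c) * c⁻¹ * (k * t * k⁻¹)⁻¹ := by
              rw [(htc.inv_left).eq]
          _ = t * (k * t * k⁻¹) * t⁻¹ * (k * t * k⁻¹)⁻¹ := by group
      rw [hsq, hcom]
      exact (hs.closure hh).eq
  · rintro A u hA hu hinv K rfl
    have huu : u * u = 1 := by rw [← sq, hu]
    have hz : ∀ z : G, u * (u * z) = z := by
      intro z; rw [← mul_assoc, huu, one_mul]
    refine ⟨?_, ?_⟩
    · intro k hk hk2
      have hkA : k ∈ A := by
        rcases K_cases A u hu hinv hk with h | h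
        · exact h
        · exact absurd (sq_of_mem A u hu hinv h) hk2
      have hin : ∀ v : G, u * v ∈ A →
          v ∈ {v : G | v ∈ Subgroup.closure ((A : Set G) ∪ {u}) ∧ v ^ 2 = 1 ∧ (v * k) ^ 2 = 1} := by
        intro v hv
        refine ⟨?_, sq_of_mem A u hu hinv hv, sq_of_mem A u hu hinv ?_⟩
        · have h1 : u * (u * v) ∈ Subgroup.closure ((A : Set G) ∪ {u}) :=
            mul_mem (Subgroup.subset_closure (Or.inr rfl)) (Subgroup.subset_closure (Or.inl hv))
          rwa [hz] at h1
        · rw [← mul_assoc]; exact mul_mem hv hkA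
      have hum : u ∈ Subgroup.closure {v : G | v ∈ Subgroup.closure ((A : Set G) ∪ {u}) ∧
          v ^ 2 = 1 ∧ (v * k) ^ 2 = 1} :=
        Subgroup.subset_closure (hin u (by rw [huu]; exact one_mem _))
      rw [Subgroup.closure_le]
      intro x hx
      rcases hx with hx | hx
      · have h1 := Subgroup.subset_closure (hin (u * x) (by rw [hz]; exact hx))
        have h2 := mul_mem hum h1
        rwa [hz] at h2
      · rw [Set.mem_singleton_iff] at hx
        rw [hx]; exact hum
    · intro S hS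
      obtain ⟨B, hB, hBA, hSB⟩ := exists_fin_set S hS
      have hBle : Subgroup.closure B ≤ A := by rw [Subgroup.closure_le]; exact hBA
      have pow4 : ∀ a ∈ A, a ^ 4 = 1 := by
        intro a ha
        have hua : (u * a) ^ 2 = 1 := by
          apply sq_of_mem A u hu hinv
          rw [← mul_assoc, huu, one_mul]; exact ha
        have := hG u (u * a) hu hua
        rwa [← mul_assoc, huu, one_mul] at this
      have hBf : Finite (Subgroup.closure B) := by
        refine finite_comm hB ?_ ?_
        · intro x hx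
          exact isOfFinOrder_iff_pow_eq_one.2 ⟨4, by norm_num, pow4 x (hBA hx)⟩
        · intro x hx y hy
          exact hA x (hBA hx) y (hBA hy)
      have huf : Finite (Subgroup.closure ({u} : Set G)) := by
        refine finite_comm (Set.finite_singleton u) ?_ ?_
        · intro x hx
          rw [Set.mem_singleton_iff] at hx
          rw [hx]
          exact isOfFinOrder_iff_pow_eq_one.2 ⟨2, by norm_num, hu⟩
        · intro x hx y hy
          rw [Set.mem_singleton_iff] at hx hy
          rw [hx, hy]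
      have hnu : Nrm (Subgroup.closure B) u := by
        apply Nrm.of_gen
        intro y hy
        have h1 := hinv y (hBA hy)
        have h2 : u⁻¹ * y * u = y⁻¹ := by
          rw [inv_of_sq hu] at h1 ⊢; exact h1
        rw [h1, h2]
        exact ⟨inv_mem (Subgroup.subset_closure hy), inv_mem (Subgroup.subset_closure hy)⟩
      have hfin := finite_sup hBf huf (fun k hk f hf =>
        (Nrm.closure (X := {u}) (by
          intro y hy; rw [Set.mem_singleton_iff] at hy; rw [hy]; exact hnu) hk).1 f hf)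
      have hle : Subgroup.closure (S : Set G) ≤ Subgroup.closure B ⊔ Subgroup.closure {u} := by
        rw [← Subgroup.closure_union, Subgroup.closure_le]
        exact hSB
      exact Finite.of_injective _ (Subgroup.inclusion_injective hle)

end Main

end Pool.Agent.Results.MP_da62d3_al.AddInvolution
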