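import Pool.Agent.Lib.KFG.Rank3

/-!
# Two elementary abelian subgroups of orders at most eight and four
-/

namespace Pool.Agent.Results.MP_da62d3_al.EightAndFour

open Pool.Agent.Lib.KFG

/-- an elementary abelian group of order at most four is generated by two elements -/
theorem two_gen {G : Type*} [Group G] (B : Subgroup G) [Finite B] (hB : ∀ x ∈ B, x * x = 1)
    (hB4 : Nat.card B ≤ 4) : ∃ b ∈ B, ∃ d ∈ B, B ≤ Subgroup.closure {b, d} := by
  classical
  by_cases h1 : ∀ x ∈ B, x = 1
  · refine ⟨1, B.one_mem, 1, B.one_mem, fun x hx => ?_⟩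
    rw [h1 x hx]
    exact Subgroup.one_mem _
  push Not at h1
  obtain ⟨b, hb, hb1⟩ := h1
  by_cases h2 : ∀ x ∈ B, x = 1 ∨ x = b
  · refine ⟨b, hb, 1, B.one_mem, fun x hx => ?_⟩
    rcases h2 x hx with rfl | rfl
    · exact Subgroup.one_mem _
    · exact Subgroup.subset_closure (Or.inl rfl)
  push Not at h2
  obtain ⟨d, hd, hd1, hdb⟩ := h2
  refine ⟨b, hb, d, hd, fun x hx => ?_⟩
  have hfin : (B : Set G).Finite := Set.toFinite _
  have bd1 : b * d ≠ 1 := by
    intro h
    apply hdb
    have := inv_eq (hB b hb)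
    rw [← this]
    exact eq_inv_of_mul_eq_one_right h
  have bdb : b * d ≠ b := by
    intro h
    apply hd1
    have : b * d = b * 1 := by rw [h, mul_one]
    exact mul_left_cancel this
  have bdd : b * d ≠ d := by
    intro h
    apply hb1
    have : b * d = 1 * d := by rw [h, one_mul]
    exact mul_right_cancel this
  have hc : ({1, b, d, b * d} : Finset G).card = 4 := by
    rw [Finset.card_insert_of_notMem, Finset.card_insert_of_notMem,
      Finset.card_insert_of_notMem, Finset.card_singleton]
    · simpa using bdd.symm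
    · simp only [Finset.mem_insert, Finset.mem_singleton, not_or]
      exact ⟨fun h => hdb h.symm, bdb.symm⟩
    · simp only [Finset.mem_insert, Finset.mem_singleton, not_or]
      exact ⟨hb1.symm, hd1.symm, bd1.symm⟩
  have hsub : ({1, b, d, b * d} : Finset G) ⊆ hfin.toFinset := by
    intro g hg
    rw [Set.Finite.mem_toFinset]
    simp only [Finset.mem_insert, Finset.mem_singleton] at hg
    rcases hg with rfl | rfl | rfl | rfl
    · exact B.one_mem
    · exact hb
    · exact hd
    · exact B.mul_mem hb hd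
  have hcard : hfin.toFinset.card ≤ 4 := by
    rw [← Nat.card_eq_card_finite_toFinset]
    exact hB4
  have heq := Finset.eq_of_subset_of_card_le hsub (by rw [hc]; exact hcard)
  have hx' : x ∈ hfin.toFinset := by
    rw [Set.Finite.mem_toFinset]
    exact hx
  rw [← heq] at hx'
  simp only [Finset.mem_insert, Finset.mem_singleton] at hx'
  have mb : b ∈ Subgroup.closure ({b, d} : Set G) := Subgroup.subset_closure (Or.inl rfl)
  have md : d ∈ Subgroup.closure ({b, d} : Set G) := Subgroup.subset_closure (Or.inr rfl)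
  rcases hx' with rfl | rfl | rfl | rfl
  · exact Subgroup.one_mem _
  · exact mb
  · exact md
  · exact Subgroup.mul_mem _ mb md

/-- Let `G` be a group in which `(x * y) ^ 4 = 1` whenever `x ^ 2 = y ^ 2 = 1`. Two finite
subgroups of `G` in which all elements have order at most two, one of order at most eight and one
of order at most four, generate a finite `2`-group. -/
theorem result {G : Type*} [Group G]
    (hG : ∀ x y : G, x ^ 2 = 1 → y ^ 2 = 1 → (x * y) ^ 4 = 1)
    (A B : Subgroup G) (hAf : Finite A) (hBf : Finite B)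
    (hA : ∀ x ∈ A, x ^ 2 = 1) (hB : ∀ x ∈ B, x ^ 2 = 1)
    (hA8 : Nat.card A ≤ 8) (hB4 : Nat.card B ≤ 4) :
    Finite (A ⊔ B : Subgroup G) ∧ IsPGroup 2 (A ⊔ B : Subgroup G) := by
  have hB' : ∀ x ∈ B, x * x = 1 := fun x hx => by rw [← sq]; exact hB x hx
  obtain ⟨b, hb, d, hd, hle⟩ := two_gen B hB' hB4
  have hH : Hyp G := by
    intro x y hx hy
    have h := hG x y (by rw [sq]; exact hx) (by rw [sq]; exact hy)
    have e : (x * y) ^ 4 = x * y * x * y * (x * y * x * y) := by
      simp only [pow_succ, pow_zero, one_mul, mul_assoc]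
    rw [← e]
    exact h
  have hbd : Commute b d := by
    have h := hB' _ (B.mul_mem hb hd)
    have h1 := inv_eq h
    rw [mul_inv_rev, inv_eq (hB' b hb), inv_eq (hB' d hd)] at h1
    exact h1.symm
  have S : Std A b d :=
    ⟨hH, fun x hx => by rw [← sq]; exact hA x hx, hB' b hb, hB' d hd, hbd⟩
  obtain ⟨h1, h2⟩ := S.main8 hA8
  have hB'' : B ≤ Subgroup.closure (Std.Sb A b ∪ Std.Sb A d) := by
    refine hle.trans (Subgroup.closure_mono ?_)
    rintro x (rfl | rfl)
    · exact Or.inl ⟨1, A.one_mem, by simp [cj]⟩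
    · exact Or.inr ⟨1, A.one_mem, by simp [cj]⟩
  have hle2 : A ⊔ B ≤ A ⊔ Subgroup.closure (Std.Sb A b ∪ Std.Sb A d) :=
    sup_le_sup_left hB'' A
  exact ⟨Set.Finite.to_subtype ((Set.toFinite _).subset hle2), h2.to_le hle2⟩

end Pool.Agent.Results.MP_da62d3_al.EightAndFour
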