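import Mathlib

/-!
# Groups generated by a forest of involutions
-/

namespace Pool.Agent.Results.MP_da62d3_al.ForestInvolutions

variable {G : Type*} [Group G]

/-- The graph on `X` whose edges are the pairs of elements of `X` that do not commute. -/
def nonCommGraph (X : Set G) : SimpleGraph X where
  Adj x y := ¬ Commute (x : G) (y : G)
  symm := ⟨fun _ _ h h' => h h'.symm⟩
  loopless := ⟨fun x h => h (Commute.refl (x : G))⟩

/-- every element of `S` is the product of an element of `S` commuting with `v` and an element of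
`S` of order at most two -/
def Good (v : G) (S : Subgroup G) : Prop :=
  ∀ η ∈ S, ∃ ρ ∈ S, ∃ κ ∈ S, Commute ρ v ∧ κ ^ 2 = 1 ∧ η = ρ * κ

theorem inv_eq {x : G} (h : x ^ 2 = 1) : x⁻¹ = x := by
  rw [inv_eq_iff_mul_eq_one, ← sq, h]

theorem comm_conj (hG : ∀ a b : G, a ^ 2 = 1 → b ^ 2 = 1 → (a * b) ^ 4 = 1) {v κ : G}
    (hv : v ^ 2 = 1) (hκ : κ ^ 2 = 1) : Commute v (κ⁻¹ * v * κ) := by
  have h := hG v κ hv hκ
  have h1 : ((v * κ) ^ 2) ^ 2 = 1 := by rw [← pow_mul]; exact h
  have h2 := inv_eq h1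
  rw [sq, mul_inv_rev, mul_inv_rev, inv_eq hv, inv_eq hκ] at h2
  show v * (κ⁻¹ * v * κ) = κ⁻¹ * v * κ * v
  rw [inv_eq hκ]
  calc v * (κ * v * κ) = v * κ * (v * κ) := by group
    _ = κ * v * (κ * v) := h2.symm
    _ = κ * v * κ * v := by group

theorem Good.comm (hG : ∀ a b : G, a ^ 2 = 1 → b ^ 2 = 1 → (a * b) ^ 4 = 1) {v : G}
    (hv : v ^ 2 = 1) {S : Subgroup G} (hS : Good v S) {η : G} (hη : η ∈ S) :
    Commute v (η⁻¹ * v * η) := by
  obtain ⟨ρ, _, κ, _, h1, h2, rfl⟩ := hS η hη
  have e : (ρ * κ)⁻¹ * v * (ρ * κ) = κ⁻¹ * v * κ := by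
    have h3 : ρ⁻¹ * v * ρ = v := by
      rw [mul_assoc, ← h1.eq, inv_mul_cancel_left]
    calc (ρ * κ)⁻¹ * v * (ρ * κ) = κ⁻¹ * (ρ⁻¹ * v * ρ) * κ := by group
      _ = κ⁻¹ * v * κ := by rw [h3]
  rw [e]
  exact comm_conj hG hv h2

/-- the subgroup generated by the conjugates of `v` under `S` -/
def conjs (v : G) (S : Subgroup G) : Subgroup G :=
  Subgroup.closure (Set.range fun η : S => (η : G)⁻¹ * v * η)

theorem self_mem_conjs (v : G) (S : Subgroup G) : v ∈ conjs v S :=
  Subgroup.subset_closure ⟨1, by simp⟩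

theorem conjs_conj {v : G} {S : Subgroup G} {s κ : G} (hs : s ∈ S) (hκ : κ ∈ conjs v S) :
    s⁻¹ * κ * s ∈ conjs v S := by
  induction hκ using Subgroup.closure_induction with
  | mem x hx =>
    obtain ⟨η, rfl⟩ := hx
    refine Subgroup.subset_closure ⟨η * ⟨s, hs⟩, ?_⟩
    simp only [Subgroup.coe_mul]
    group
  | one =>
    have e : s⁻¹ * 1 * s = 1 := by group
    rw [e]
    exact (conjs v S).one_mem
  | mul x y _ _ hx hy =>
    have e : s⁻¹ * (x * y) * s = s⁻¹ * x * s * (s⁻¹ * y * s) := by group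
    rw [e]
    exact (conjs v S).mul_mem hx hy
  | inv x _ hx =>
    have e : s⁻¹ * x⁻¹ * s = (s⁻¹ * x * s)⁻¹ := by group
    rw [e]
    exact (conjs v S).inv_mem hx

theorem Good.conjs_comm (hG : ∀ a b : G, a ^ 2 = 1 → b ^ 2 = 1 → (a * b) ^ 4 = 1) {v : G}
    (hv : v ^ 2 = 1) {S : Subgroup G} (hS : Good v S) {x y : G} (hx : x ∈ conjs v S)
    (hy : y ∈ conjs v S) : Commute x y := by
  have key : ∀ η η' : S, Commute ((η : G)⁻¹ * v * η) ((η' : G)⁻¹ * v * η') := by
    intro η η'
    have h := hS.comm hG hv (S.mul_mem η'.2 (S.inv_mem η.2))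
    have h2 := h.map (MulAut.conj (η : G)⁻¹).toMonoidHom
    have e1 : (MulAut.conj (η : G)⁻¹).toMonoidHom v = (η : G)⁻¹ * v * η := by simp
    have e2 : (MulAut.conj (η : G)⁻¹).toMonoidHom
        (((η' : G) * (η : G)⁻¹)⁻¹ * v * ((η' : G) * (η : G)⁻¹)) = (η' : G)⁻¹ * v * η' := by
      simp only [MulEquiv.coe_toMonoidHom, MulAut.conj_apply]
      group
    rw [e1, e2] at h2
    exact h2
  have h1 : ∀ η : S, ∀ y ∈ conjs v S, Commute ((η : G)⁻¹ * v * η) y := by
    intro η y hy
    induction hy using Subgroup.closure_induction with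
    | mem x hx =>
      obtain ⟨η', rfl⟩ := hx
      exact key η η'
    | one => exact Commute.one_right _
    | mul a b _ _ ha hb => exact ha.mul_right hb
    | inv a _ ha => exact ha.inv_right
  induction hx using Subgroup.closure_induction with
  | mem x hx =>
    obtain ⟨η, rfl⟩ := hx
    exact h1 η y hy
  | one => exact Commute.one_left _
  | mul a b _ _ ha hb => exact ha.mul_left hb
  | inv a _ ha => exact ha.inv_left

theorem Good.conjs_sq (hG : ∀ a b : G, a ^ 2 = 1 → b ^ 2 = 1 → (a * b) ^ 4 = 1) {v : G}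
    (hv : v ^ 2 = 1) {S : Subgroup G} (hS : Good v S) {x : G} (hx : x ∈ conjs v S) :
    x ^ 2 = 1 := by
  induction hx using Subgroup.closure_induction with
  | mem x hx =>
    obtain ⟨η, rfl⟩ := hx
    have e : ((η : G)⁻¹ * v * η) ^ 2 = (η : G)⁻¹ * v ^ 2 * η := by
      rw [sq, sq]
      group
    rw [e, hv]
    group
  | one => exact one_pow 2
  | mul a b ha' hb' ha hb => rw [(hS.conjs_comm hG hv ha' hb').mul_pow, ha, hb, one_mul]
  | inv a _ ha => rw [inv_pow, ha, inv_one]

/-- the elements of `⟨v, S⟩` -/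
theorem mem_sup_iff {v : G} {S : Subgroup G} {g : G}
    (hg : g ∈ Subgroup.closure ({v} ∪ (S : Set G))) : ∃ ρ ∈ S, ∃ κ ∈ conjs v S, g = ρ * κ := by
  induction hg using Subgroup.closure_induction_right with
  | one => exact ⟨1, S.one_mem, 1, (conjs v S).one_mem, by simp⟩
  | mul_right x hx y hy ih =>
    obtain ⟨ρ, hρ, κ, hκ, rfl⟩ := ih
    rcases hy with hy | hy
    · rw [Set.mem_singleton_iff] at hy
      subst hy
      exact ⟨ρ, hρ, κ * y, (conjs y S).mul_mem hκ (self_mem_conjs y S), by group⟩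
    · exact ⟨ρ * y, S.mul_mem hρ hy, y⁻¹ * κ * y, conjs_conj hy hκ, by group⟩
  | mul_inv_cancel x hx y hy ih =>
    obtain ⟨ρ, hρ, κ, hκ, rfl⟩ := ih
    rcases hy with hy | hy
    · rw [Set.mem_singleton_iff] at hy
      subst hy
      exact ⟨ρ, hρ, κ * y⁻¹, (conjs y S).mul_mem hκ ((conjs y S).inv_mem (self_mem_conjs y S)),
        by group⟩
    · exact ⟨ρ * y⁻¹, S.mul_mem hρ (S.inv_mem hy), (y⁻¹)⁻¹ * κ * y⁻¹,
        conjs_conj (S.inv_mem hy) hκ, by group⟩

theorem conjs_le {v : G} {S : Subgroup G} :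
    conjs v S ≤ Subgroup.closure ({v} ∪ (S : Set G)) := by
  refine (Subgroup.closure_le _).2 ?_
  rintro _ ⟨η, rfl⟩
  have h1 : (η : G) ∈ Subgroup.closure ({v} ∪ (S : Set G)) :=
    Subgroup.subset_closure (Or.inr η.2)
  have h2 : v ∈ Subgroup.closure ({v} ∪ (S : Set G)) := Subgroup.subset_closure (Or.inl rfl)
  exact Subgroup.mul_mem _ (Subgroup.mul_mem _ (Subgroup.inv_mem _ h1) h2) h1

/-- (B) -/
theorem Good.step (hG : ∀ a b : G, a ^ 2 = 1 → b ^ 2 = 1 → (a * b) ^ 4 = 1) {v w : G}
    (hv : v ^ 2 = 1) {S : Subgroup G} (hS : Good v S) (hw : ∀ s ∈ S, Commute s w) :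
    Good w (Subgroup.closure ({v} ∪ (S : Set G))) := by
  intro η hη
  obtain ⟨ρ, hρ, κ, hκ, rfl⟩ := mem_sup_iff hη
  exact ⟨ρ, Subgroup.subset_closure (Or.inr hρ), κ, conjs_le hκ, hw ρ hρ, hS.conjs_sq hG hv hκ, rfl⟩

/-- (C) -/
theorem Good.union {w : G} {S T : Subgroup G} (hS : Good w S) (hT : Good w T)
    (hST : ∀ s ∈ S, ∀ t ∈ T, Commute s t) : Good w (S ⊔ T) := by
  have key : ∀ g ∈ S ⊔ T, ∃ s ∈ S, ∃ t ∈ T, g = s * t := by
    intro g hg
    rw [Subgroup.sup_eq_closure] at hg
    induction hg using Subgroup.closure_induction_right with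
    | one => exact ⟨1, S.one_mem, 1, T.one_mem, by simp⟩
    | mul_right x hx y hy ih =>
      obtain ⟨s, hs, t, ht, rfl⟩ := ih
      rcases hy with hy | hy
      · exact ⟨s * y, S.mul_mem hs hy, t, ht, by
          rw [mul_assoc, mul_assoc, (hST y hy t ht).eq]⟩
      · exact ⟨s, hs, t * y, T.mul_mem ht hy, by group⟩
    | mul_inv_cancel x hx y hy ih =>
      obtain ⟨s, hs, t, ht, rfl⟩ := ih
      rcases hy with hy | hy
      · exact ⟨s * y⁻¹, S.mul_mem hs (S.inv_mem hy), t, ht, by
          rw [mul_assoc, mul_assoc, (hST y⁻¹ (S.inv_mem hy) t ht).eq]⟩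
      · exact ⟨s, hs, t * y⁻¹, T.mul_mem ht (T.inv_mem hy), by group⟩
  intro η hη
  obtain ⟨s, hs, t, ht, rfl⟩ := key η hη
  obtain ⟨ρ, hρ, κ, hκ, h1, h2, rfl⟩ := hS s hs
  obtain ⟨ρ', hρ', κ', hκ', h1', h2', rfl⟩ := hT t ht
  refine ⟨ρ * ρ', (S ⊔ T).mul_mem (Subgroup.mem_sup_left hρ) (Subgroup.mem_sup_right hρ'),
    κ * κ', (S ⊔ T).mul_mem (Subgroup.mem_sup_left hκ) (Subgroup.mem_sup_right hκ'),
    h1.mul_left h1', ?_, ?_⟩
  · rw [(hST κ hκ κ' hκ').mul_pow, h2, h2', one_mul]
  · have e := (hST κ hκ ρ' hρ').eq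
    calc ρ * κ * (ρ' * κ') = ρ * (κ * ρ') * κ' := by group
      _ = ρ * (ρ' * κ) * κ' := by rw [e]
      _ = ρ * ρ' * (κ * κ') := by group

theorem closure_comm {A B : Set G} (h : ∀ a ∈ A, ∀ b ∈ B, Commute a b) :
    ∀ s ∈ Subgroup.closure A, ∀ t ∈ Subgroup.closure B, Commute s t := by
  intro s hs t ht
  have h1 : ∀ a ∈ A, Commute a t := by
    intro a ha
    induction ht using Subgroup.closure_induction with
    | mem x hx => exact h a ha x hx
    | one => exact Commute.one_right _
    | mul a b _ _ ha hb => exact ha.mul_right hb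
    | inv a _ ha => exact ha.inv_right
  induction hs using Subgroup.closure_induction with
  | mem x hx => exact h1 x hx
  | one => exact Commute.one_left _
  | mul a b _ _ ha hb => exact ha.mul_left hb
  | inv a _ ha => exact ha.inv_left

variable {X : Set G}

/-- the subgroup generated by a finite part of `X` -/
def cl (s : Finset X) : Subgroup G := Subgroup.closure ((fun x : X => (x : G)) '' (s : Set X))

theorem cl_erase [DecidableEq X] {s : Finset X} {u : X} (hu : u ∈ s) :
    Subgroup.closure ({(u : G)} ∪ (cl (s.erase u) : Set G)) = cl s := by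
  apply le_antisymm
  · refine (Subgroup.closure_le _).2 (Set.union_subset ?_ ?_)
    · rintro _ rfl
      exact Subgroup.subset_closure ⟨u, hu, rfl⟩
    · exact Subgroup.closure_mono (Set.image_mono (Finset.coe_subset.2 (Finset.erase_subset u s)))
  · refine (Subgroup.closure_le _).2 ?_
    rintro _ ⟨x, hx, rfl⟩
    by_cases h : x = u
    · subst h
      exact Subgroup.subset_closure (Or.inl rfl)
    · exact Subgroup.subset_closure (Or.inr (Subgroup.subset_closure
        ⟨x, Finset.mem_coe.2 (Finset.mem_erase.2 ⟨h, hx⟩), rfl⟩))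

theorem cl_union [DecidableEq X] (s t : Finset X) : cl (s ∪ t) = cl s ⊔ cl t := by
  unfold cl
  rw [Finset.coe_union, Set.image_union, Subgroup.closure_union]

theorem good_forest (hG : ∀ a b : G, a ^ 2 = 1 → b ^ 2 = 1 → (a * b) ^ 4 = 1)
    (hX : ∀ x ∈ X, x ^ 2 = 1) (hF : (nonCommGraph X).IsAcyclic) :
    ∀ (n : ℕ) (s : Finset X) (v : X), s.card = n → v ∉ s → Good (v : G) (cl s) := by
  classical
  intro n
  induction n using Nat.strong_induction_on with
  | _ n ih =>
  intro s v hn hv
  rcases s.eq_empty_or_nonempty with rfl | ⟨u0, hu0⟩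
  · intro η hη
    have : η = 1 := by
      unfold cl at hη
      simpa using hη
    subst this
    exact ⟨1, Subgroup.one_mem _, 1, Subgroup.one_mem _, Commute.one_left _, one_pow 2, by simp⟩
  set r : X → X → Prop := fun x y => x ∈ s ∧ y ∈ s ∧ (nonCommGraph X).Adj x y with hr
  set A := s.filter fun y => Relation.ReflTransGen r u0 y with hA
  have hu0A : u0 ∈ A := Finset.mem_filter.2 ⟨hu0, Relation.ReflTransGen.refl⟩
  by_cases hB : (s \ A).Nonempty
  · -- disconnected
    have hAs : A ⊆ s := Finset.filter_subset _ _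
    have hsplit : s = A ∪ s \ A := (Finset.union_sdiff_of_subset hAs).symm
    obtain ⟨b0, hb0⟩ := hB
    have hcA : A.card < n := by
      rw [← hn]
      exact Finset.card_lt_card ⟨hAs, fun h => (Finset.mem_sdiff.1 hb0).2 (h (Finset.mem_sdiff.1 hb0).1)⟩
    have hcB : (s \ A).card < n := by
      rw [← hn]
      refine Finset.card_lt_card ⟨Finset.sdiff_subset, fun h => ?_⟩
      exact (Finset.mem_sdiff.1 (h hu0)).2 hu0A
    have g1 := ih _ hcA A v rfl (fun h => hv (hAs h))
    have g2 := ih _ hcB (s \ A) v rfl (fun h => hv (Finset.mem_sdiff.1 h).1)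
    rw [hsplit, cl_union]
    refine g1.union g2 (closure_comm ?_)
    rintro _ ⟨a, ha, rfl⟩ _ ⟨b, hb, rfl⟩
    by_contra hab
    have ha' := Finset.mem_filter.1 (Finset.mem_coe.1 ha)
    have hb' := Finset.mem_sdiff.1 (Finset.mem_coe.1 hb)
    exact hb'.2 (Finset.mem_filter.2 ⟨hb'.1, ha'.2.tail ⟨ha'.1, hb'.1, hab⟩⟩)
  · -- connected
    have hall : ∀ y ∈ s, Relation.ReflTransGen r u0 y := by
      intro y hy
      by_contra h
      exact hB ⟨y, Finset.mem_sdiff.2 ⟨hy, fun h' => h (Finset.mem_filter.1 h').2⟩⟩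
    have hsymm : ∀ x y, Relation.ReflTransGen r x y → Relation.ReflTransGen r y x := by
      intro x y hxy
      induction hxy with
      | refl => exact Relation.ReflTransGen.refl
      | tail _ h2 ih2 => exact Relation.ReflTransGen.head ⟨h2.2.1, h2.1, h2.2.2.symm⟩ ih2
    have huniq : ∀ u ∈ s, ∀ u' ∈ s, (nonCommGraph X).Adj v u → (nonCommGraph X).Adj v u' →
        u = u' := by
      intro u hu u' hu' h h'
      by_contra hne
      have hbr := (SimpleGraph.isAcyclic_iff_forall_adj_isBridge.1 hF) h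
      rw [SimpleGraph.isBridge_iff] at hbr
      apply hbr
      have hlift : ∀ x y, Relation.ReflTransGen r x y →
          ((nonCommGraph X).deleteEdges {s(v, u)}).Reachable x y := by
        intro x y hxy
        induction hxy with
        | refl => exact SimpleGraph.Reachable.refl _
        | tail _ h2 ih2 =>
          refine ih2.trans (SimpleGraph.Adj.reachable ?_)
          rw [SimpleGraph.deleteEdges_adj]
          refine ⟨h2.2.2, ?_⟩
          intro h3
          rw [Set.mem_singleton_iff, Sym2.eq_iff] at h3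
          rcases h3 with ⟨h4, _⟩ | ⟨_, h4⟩
          · exact hv (h4 ▸ h2.1)
          · exact hv (h4 ▸ h2.2.1)
      have h5 : Relation.ReflTransGen r u' u :=
        (hsymm _ _ (hall u' hu')).trans (hall u hu)
      have h6 : ((nonCommGraph X).deleteEdges {s(v, u)}).Adj v u' := by
        rw [SimpleGraph.deleteEdges_adj]
        refine ⟨h', ?_⟩
        intro h3
        rw [Set.mem_singleton_iff, Sym2.eq_iff] at h3
        rcases h3 with ⟨_, h4⟩ | ⟨h4, _⟩
        · exact hne h4.symm
        · exact hv (h4 ▸ hu)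
      exact h6.reachable.trans (hlift u' u h5)
    by_cases hnb : ∃ u ∈ s, (nonCommGraph X).Adj v u
    · obtain ⟨u, hu, huv⟩ := hnb
      have hc : (s.erase u).card < n := by
        rw [← hn]
        exact Finset.card_erase_lt_of_mem hu
      have g := ih _ hc (s.erase u) u rfl (Finset.notMem_erase u s)
      have g2 := g.step hG (hX u u.2) (w := (v : G)) (by
        have h := closure_comm (A := (fun x : X => (x : G)) '' ((s.erase u : Finset X) : Set X))
          (B := {(v : G)}) (by
            rintro _ ⟨a, ha, rfl⟩ _ rfl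
            have ha' := Finset.mem_erase.1 (Finset.mem_coe.1 ha)
            by_contra hab
            exact ha'.1 (huniq a ha'.2 u hu (fun h => hab h.symm) huv))
        intro t ht
        exact h t ht v (Subgroup.subset_closure rfl))
      rwa [cl_erase hu] at g2
    · push Not at hnb
      intro η hη
      refine ⟨η, hη, 1, Subgroup.one_mem _, ?_, one_pow 2, by simp⟩
      have h := closure_comm (A := (fun x : X => (x : G)) '' (s : Set X))
        (B := {(v : G)}) (by
          rintro _ ⟨a, ha, rfl⟩ _ rfl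
          by_contra hab
          exact hnb a ha (fun h => hab h.symm))
      exact h η hη v (Subgroup.subset_closure rfl)

theorem conjs_finite (hG : ∀ a b : G, a ^ 2 = 1 → b ^ 2 = 1 → (a * b) ^ 4 = 1) {v : G}
    (hv : v ^ 2 = 1) {S : Subgroup G} (hS : Good v S) [Finite S] : Finite (conjs v S) := by
  have hfin : (Set.range fun η : S => (η : G)⁻¹ * v * η).Finite := Set.finite_range _
  let i : CommGroup (conjs v S) :=
    { (inferInstance : Group (conjs v S)) with
      mul_comm := fun x y => Subtype.ext (hS.conjs_comm hG hv x.2 y.2).eq }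
  have hfg : Group.FG (conjs v S) :=
    (Group.fg_iff_subgroup_fg _).2 ((Subgroup.fg_iff _).2 ⟨_, rfl, hfin⟩)
  have htor : IsMulTorsion (conjs v S) := by
    intro x
    rw [isOfFinOrder_iff_pow_eq_one]
    exact ⟨2, by norm_num, Subtype.ext (hS.conjs_sq hG hv x.2)⟩
  exact CommGroup.finite_of_fg_isMulTorsion _ htor

theorem cl_finite (hG : ∀ a b : G, a ^ 2 = 1 → b ^ 2 = 1 → (a * b) ^ 4 = 1)
    (hX : ∀ x ∈ X, x ^ 2 = 1) (hF : (nonCommGraph X).IsAcyclic) :
    ∀ (n : ℕ) (s : Finset X), s.card = n → Finite (cl s) ∧ IsPGroup 2 (cl s) := by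
  classical
  intro n
  induction n with
  | zero =>
    intro s hs
    rw [Finset.card_eq_zero] at hs
    subst hs
    have : cl (∅ : Finset X) = ⊥ := by
      unfold cl
      simp
    rw [this]
    exact ⟨inferInstance, IsPGroup.of_bot⟩
  | succ n ih =>
    intro s hs
    have hne : s.Nonempty := by
      rw [← Finset.card_pos]
      omega
    obtain ⟨v, hvs⟩ := hne
    obtain ⟨h1, h2⟩ := ih (s.erase v) (by rw [Finset.card_erase_of_mem hvs]; omega)
    have hg := good_forest hG hX hF _ (s.erase v) v rfl (Finset.notMem_erase v s)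
    have h3 := conjs_finite hG (hX v v.2) hg
    rw [← cl_erase hvs]
    set S := cl (s.erase v) with hS
    have hle : Subgroup.closure ({(v : G)} ∪ (S : Set G)) ≤ S ⊔ conjs (v : G) S := by
      refine (Subgroup.closure_le _).2 (Set.union_subset ?_ ?_)
      · rintro _ rfl
        exact Subgroup.mem_sup_right (self_mem_conjs _ _)
      · intro x hx
        exact Subgroup.mem_sup_left hx
    have hge : S ⊔ conjs (v : G) S ≤ Subgroup.closure ({(v : G)} ∪ (S : Set G)) :=
      sup_le (fun x hx => Subgroup.subset_closure (Or.inr hx)) conjs_le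
    constructor
    · have hf : (Set.range fun p : S × conjs (v : G) S => (p.1 : G) * (p.2 : G)).Finite :=
        Set.finite_range _
      refine Set.Finite.to_subtype (hf.subset ?_)
      intro g hg'
      obtain ⟨ρ, hρ, κ, hκ, rfl⟩ := mem_sup_iff hg'
      exact ⟨(⟨ρ, hρ⟩, ⟨κ, hκ⟩), rfl⟩
    · have h4 : IsPGroup 2 (conjs (v : G) S) := by
        intro x
        exact ⟨1, Subtype.ext (hg.conjs_sq hG (hX v v.2) x.2)⟩
      have h5 : S ≤ Subgroup.normalizer (conjs (v : G) S : Set G) := by
        intro x hx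
        rw [Subgroup.mem_normalizer_iff]
        intro y
        constructor
        · intro hy
          have := conjs_conj (S.inv_mem hx) hy
          simpa using this
        · intro hy
          have := conjs_conj hx hy
          have e : x⁻¹ * (x * y * x⁻¹) * x = y := by group
          rwa [e] at this
      have h6 : IsPGroup 2 ((S ⊔ conjs (v : G) S : Subgroup G)) :=
        h2.to_sup_of_normal_right' h4 h5
      rw [le_antisymm hle hge]
      exact h6

/-- Let `G` be a group in which the product of any two elements of order at most two has order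
`1`, `2` or `4`, and let `X` be a set of elements of order at most two (of any size) such that the
graph of the pairs of elements of `X` which do not commute is a forest (it has no cycles). Then the
subgroup generated by `X` is locally finite, and it is a `2`-group. -/
theorem result {G : Type*} [Group G]
    (hG : ∀ a b : G, a ^ 2 = 1 → b ^ 2 = 1 → (a * b) ^ 4 = 1)
    (X : Set G) (hX : ∀ x ∈ X, x ^ 2 = 1) (hF : (nonCommGraph X).IsAcyclic)
    (H : Subgroup G) (hH : H ≤ Subgroup.closure X) (hfg : H.FG) :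
    Finite H ∧ IsPGroup 2 H := by
  classical
  have h1 : ∀ g ∈ Subgroup.closure X, ∃ s : Finset X, g ∈ cl s := by
    intro g hg
    induction hg using Subgroup.closure_induction with
    | mem x hx => exact ⟨{⟨x, hx⟩}, Subgroup.subset_closure ⟨⟨x, hx⟩, by simp, rfl⟩⟩
    | one => exact ⟨∅, Subgroup.one_mem _⟩
    | mul a b _ _ ha hb =>
      obtain ⟨s, hs⟩ := ha
      obtain ⟨t, ht⟩ := hb
      refine ⟨s ∪ t, ?_⟩
      rw [cl_union]
      exact Subgroup.mul_mem _ (Subgroup.mem_sup_left hs) (Subgroup.mem_sup_right ht)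
    | inv a _ ha =>
      obtain ⟨s, hs⟩ := ha
      exact ⟨s, Subgroup.inv_mem _ hs⟩
  obtain ⟨F, rfl⟩ := hfg
  have h2 : ∀ F : Finset G, (F : Set G) ⊆ Subgroup.closure X →
      ∃ s : Finset X, Subgroup.closure (F : Set G) ≤ cl s := by
    intro F
    induction F using Finset.induction_on with
    | empty => intro _; exact ⟨∅, by simp⟩
    | insert a F ha ih =>
      intro hsub
      rw [Finset.coe_insert, Set.insert_subset_iff] at hsub
      obtain ⟨s, hs⟩ := ih hsub.2
      obtain ⟨t, ht⟩ := h1 a hsub.1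
      refine ⟨s ∪ t, ?_⟩
      rw [cl_union, Finset.coe_insert, Subgroup.closure_le, Set.insert_subset_iff]
      exact ⟨Subgroup.mem_sup_right ht, fun x hx =>
        Subgroup.mem_sup_left (hs (Subgroup.subset_closure hx))⟩
  obtain ⟨s, hs⟩ := h2 F (fun x hx => hH (Subgroup.subset_closure hx))
  obtain ⟨h3, h4⟩ := cl_finite hG hX hF _ s rfl
  constructor
  · exact Set.Finite.to_subtype ((Set.toFinite (cl s : Set G)).subset hs)
  · exact h4.to_le hs

end Pool.Agent.Results.MP_da62d3_al.ForestInvolutions
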