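import Mathlib
import Pool.Agent.Lib.KFG.TwoFour

/-!
# An involution and an element of order four in a group without dihedral subgroups of order 16
-/

open scoped commutatorElement

open Pool.Agent.Lib.KFG

namespace Pool.Agent.Results.MP_da62d3_al.InvolutionAndOrderFour

/-- Let `G` be a group in which the product of any two elements of order at most two has order
`1`, `2` or `4`. If `t ^ 2 = 1` and `g ^ 4 = 1`, then `t` and `g` generate a finite `2`-group of
order at most `2 ^ 12`. -/
theorem result {G : Type*} [Group G]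
    (hG : ∀ x y : G, x ^ 2 = 1 → y ^ 2 = 1 → (x * y) ^ 4 = 1) (t g : G)
    (ht : t ^ 2 = 1) (hg : g ^ 4 = 1) :
    Finite (Subgroup.closure {t, g}) ∧ IsPGroup 2 (Subgroup.closure {t, g}) ∧
      Nat.card (Subgroup.closure {t, g}) ≤ 2 ^ 12 := by
  classical
  have H : Hyp G := by
    intro x y hx hy
    have h := hG x y (by rw [sq, hx]) (by rw [sq, hy])
    rw [← h]
    simp only [pow_succ, pow_zero, one_mul, mul_assoc]
  have hh : g * g * (g * g) = 1 := by
    rw [← hg]
    simp only [pow_succ, pow_zero, one_mul, mul_assoc]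
  have conj2 : ∀ k : G, (k⁻¹ * t * k) ^ 2 = 1 := by
    intro k
    have : (k⁻¹ * t * k) ^ 2 = k⁻¹ * t ^ 2 * k := by
      rw [sq, sq]
      group
    rw [this, ht]
    group
  have hinv : (g * g)⁻¹ = g * g := inv_eq hh
  have c0 : Commute t (g⁻¹ * (g⁻¹ * t * g) * g) := by
    have h := comm_conj H hh (by rw [← sq]; exact ht : t * t = 1)
    have e : g⁻¹ * (g⁻¹ * t * g) * g = g * g * t * (g * g) := by
      nth_rewrite 1 [← hinv]
      group
    rw [e]
    exact h
  have c1 : Commute (g⁻¹ * t * g) (g⁻¹ * (g⁻¹ * (g⁻¹ * t * g) * g) * g) := by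
    have h := c0.map (MulAut.conj g⁻¹).toMonoidHom
    simpa [mul_assoc] using h
  set t1 := g⁻¹ * t * g with ht1
  set t2 := g⁻¹ * t1 * g with ht2
  set t3 := g⁻¹ * t2 * g with ht3
  have e3 : g⁻¹ * t3 * g = t := by
    rw [ht3, ht2, ht1]
    have : g⁻¹ * (g⁻¹ * (g⁻¹ * (g⁻¹ * t * g) * g) * g) * g =
        (g * g * (g * g))⁻¹ * t * (g * g * (g * g)) := by group
    rw [this, hh]
    group
  have hs1 : t1 ^ 2 = 1 := conj2 g
  have hs2 : t2 ^ 2 = 1 := by
    have := conj2 (g * g)
    have e : (g * g)⁻¹ * t * (g * g) = t2 := by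
      rw [ht2, ht1]
      group
    rwa [e] at this
  have hs3 : t3 ^ 2 = 1 := by
    have := conj2 (g * g * g)
    have e : (g * g * g)⁻¹ * t * (g * g * g) = t3 := by
      rw [ht3, ht2, ht1]
      group
    rwa [e] at this
  have ht' : t * t = 1 := by rw [← sq]; exact ht
  have hs1' : t1 * t1 = 1 := by rw [← sq]; exact hs1
  have hs2' : t2 * t2 = 1 := by rw [← sq]; exact hs2
  have hs3' : t3 * t3 = 1 := by rw [← sq]; exact hs3
  have hct : g * g * t * (g * g) = t2 := by
    rw [ht2, ht1]
    nth_rewrite 1 [← hinv]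
    group
  have hct1 : g * g * t1 * (g * g) = t3 := by
    rw [ht3, ht2]
    nth_rewrite 1 [← hinv]
    group
  obtain ⟨fA, cA, kA, sA⟩ := pair_facts ht' hs2' c0
  have S : Std (Subgroup.closure {t, t2}) t1 t3 := ⟨H, sA, hs1', hs3', c1⟩
  have ma : t ∈ Subgroup.closure {t, t2} := Subgroup.subset_closure (Or.inl rfl)
  have mc : t2 ∈ Subgroup.closure {t, t2} := Subgroup.subset_closure (Or.inr rfl)
  have mo : (1 : G) ∈ Subgroup.closure {t, t2} := Subgroup.one_mem _
  have hct2 : g * g * t2 * (g * g) = t := by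
    rw [← hct]
    calc g * g * (g * g * t * (g * g)) * (g * g) = g * g * (g * g) * t * (g * g * (g * g)) := by
          group
      _ = t := by rw [hh, one_mul, mul_one]
  obtain ⟨w1, w2⟩ := swap_facts H ht' hs1' hs2' hs3' c0 c1 hh hct hct1
  obtain ⟨-, w3⟩ := swap_facts H hs1' hs2' hs3' ht' c1 c0.symm hh hct1 hct2
  have e1 : ∀ x : G, cj 1 x = x := by
    intro x
    simp [cj]
  rw [prod_form ht' hs1' hs2' c0, prod_form ht' hs3' hs2' c0] at w3
  have mac : t * t2 ∈ Subgroup.closure {t, t2} := Subgroup.mul_mem _ ma mc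
  obtain ⟨⟨f1, p1⟩, -⟩ := S.main_m cA (S.S0_two ma mc kA w1 w2)
  have b1 := S.main_three cA (S.S0_two ma mc kA w1 w2) {t3, cj t t3, cj t2 t3}
    (by
      intro x hx
      simp only [Finset.coe_insert, Finset.coe_singleton, Set.mem_insert_iff,
        Set.mem_singleton_iff] at hx
      rcases hx with rfl | rfl | rfl
      · exact ⟨1, mo, (e1 _).symm⟩
      · exact ⟨t, ma, rfl⟩
      · exact ⟨t2, mc, rfl⟩) Finset.card_le_three
    (by
      set Z := Subgroup.closure ((({t3, cj t t3, cj t2 t3} : Finset G) : Set G) ∪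
        (Std.Sb (Subgroup.closure {t, t2}) t1 ∪ Std.S0 (Subgroup.closure {t, t2}) t1 t3)) with hZ
      have z1 : t3 ∈ Z := Subgroup.subset_closure (Or.inl (by simp))
      have z2 : cj t t3 ∈ Z := Subgroup.subset_closure (Or.inl (by simp))
      have z3 : cj t2 t3 ∈ Z := Subgroup.subset_closure (Or.inl (by simp))
      have y : ∀ x ∈ Subgroup.closure {t, t2}, cj x t1 ∈ Z := fun x hx =>
        Subgroup.subset_closure (Or.inr (Or.inl ⟨x, hx, rfl⟩))
      have y1 : t1 ∈ Z := by
        have := y 1 mo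
        rwa [e1] at this
      have z4 : cj (t * t2) t3 ∈ Z := by
        have e : cj (t * t2) t3 = (cj t2 t3)⁻¹ *
            (cj t2 t3 * cj (t * t2) t3 * cj t t3 * t3) * t3⁻¹ * (cj t t3)⁻¹ := by group
        rw [e, ← w3]
        exact Z.mul_mem (Z.mul_mem (Z.mul_mem (Z.inv_mem z3)
          (Z.mul_mem (Z.mul_mem (Z.mul_mem (y t2 mc) (y _ mac)) (y t ma)) y1))
          (Z.inv_mem z1)) (Z.inv_mem z2)
      rintro _ ⟨x, hx, rfl⟩
      rcases kA x hx with rfl | rfl | rfl | rfl
      · rw [e1]
        exact z1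
      · exact z2
      · exact z3
      · exact z4)
  set M := Subgroup.closure {t, t1, t2, t3} with hM
  have hML : M ≤ Subgroup.closure {t, t2} ⊔ Subgroup.closure (Std.Sb (Subgroup.closure {t, t2}) t1 ∪
      Std.Sb (Subgroup.closure {t, t2}) t3) := by
    rw [hM, Subgroup.closure_le]
    rintro x (rfl | rfl | rfl | hx)
    · exact Subgroup.mem_sup_left ma
    · exact Subgroup.mem_sup_right (Subgroup.subset_closure (Or.inl ⟨1, mo, (e1 _).symm⟩))
    · exact Subgroup.mem_sup_left mc
    · rw [Set.mem_singleton_iff] at hx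
      rw [hx]
      exact Subgroup.mem_sup_right (Subgroup.subset_closure (Or.inr ⟨1, mo, (e1 _).symm⟩))
  have r1 : Finite M := Set.Finite.to_subtype ((Set.toFinite _).subset hML)
  have r2 : IsPGroup 2 M := p1.to_le hML
  have r3 : Nat.card M ≤ 2 ^ 10 :=
    ((Nat.card_mono (Set.toFinite _) hML).trans b1).trans (by norm_num)
  have m0 : t ∈ M := Subgroup.subset_closure (Or.inl rfl)
  have m1 : t1 ∈ M := Subgroup.subset_closure (Or.inr (Or.inl rfl))
  have m2 : t2 ∈ M := Subgroup.subset_closure (Or.inr (Or.inr (Or.inl rfl)))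
  have m3 : t3 ∈ M := Subgroup.subset_closure (Or.inr (Or.inr (Or.inr rfl)))
  have hcj : ∀ x ∈ M, g⁻¹ * x * g ∈ M := by
    intro x hx
    rw [hM] at hx
    induction hx using Subgroup.closure_induction with
    | mem x hx =>
      rcases hx with rfl | rfl | rfl | hx
      · exact m1
      · exact m2
      · exact m3
      · rw [Set.mem_singleton_iff] at hx
        rw [hx, e3]
        exact m0
    | one => simp
    | mul a b _ _ ha hb =>
      have : g⁻¹ * (a * b) * g = g⁻¹ * a * g * (g⁻¹ * b * g) := by group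
      rw [this]
      exact Subgroup.mul_mem _ ha hb
    | inv a _ ha =>
      have : g⁻¹ * a⁻¹ * g = (g⁻¹ * a * g)⁻¹ := by group
      rw [this]
      exact Subgroup.inv_mem _ ha
  have hcj2 : ∀ x ∈ M, g * x * g⁻¹ ∈ M := by
    intro x hx
    have h := hcj _ (hcj _ (hcj _ hx))
    have e : g⁻¹ * (g⁻¹ * (g⁻¹ * x * g) * g) * g =
        g * ((g * g * (g * g))⁻¹ * x * (g * g * (g * g))) * g⁻¹ := by group
    rw [e, hh] at h
    simpa using h
  have hgn : g ∈ Subgroup.normalizer (M : Set G) := by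
    rw [Subgroup.mem_normalizer_iff]
    intro x
    constructor
    · exact hcj2 x
    · intro hx
      have h := hcj _ hx
      have e : g⁻¹ * (g * x * g⁻¹) * g = x := by group
      rwa [e] at h
  have hZ : ∀ x ∈ Subgroup.closure {g}, x ∈ ({1, g, g ^ 2, g ^ 3} : Finset G) := by
    intro x hx
    rw [Subgroup.mem_closure_singleton] at hx
    obtain ⟨k, rfl⟩ := hx
    have h4 : g ^ (4 : ℤ) = 1 := by
      have : g ^ (4 : ℤ) = g ^ 4 := by norm_cast
      rw [this, hg]
    have hk : g ^ k = g ^ (k % 4) := by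
      conv_lhs => rw [← Int.emod_add_mul_ediv k 4, zpow_add, zpow_mul, h4, one_zpow, mul_one]
    rw [hk]
    have h0 : 0 ≤ k % 4 := Int.emod_nonneg _ (by norm_num)
    have h5 : k % 4 < 4 := Int.emod_lt_of_pos _ (by norm_num)
    generalize k % 4 = m at *
    simp only [Finset.mem_insert, Finset.mem_singleton]
    interval_cases m
    · left; simp
    · right; left; simp
    · right; right; left
      norm_cast
    · right; right; right
      norm_cast
  have hfZ : Finite (Subgroup.closure {g} : Subgroup G) :=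
    ((Finset.finite_toSet _).subset hZ).to_subtype
  have hcZ : Nat.card (Subgroup.closure {g} : Subgroup G) ≤ 4 := by
    have h3 : Nat.card (Subgroup.closure {g} : Subgroup G) ≤
        Nat.card (({1, g, g ^ 2, g ^ 3} : Finset G) : Set G) :=
      Nat.card_mono (Finset.finite_toSet _) hZ
    refine h3.trans ?_
    rw [Nat.card_coe_set_eq, Set.ncard_coe_finset]
    exact Finset.card_le_four
  have hpZ : IsPGroup 2 (Subgroup.closure {g} : Subgroup G) := by
    rintro ⟨x, hx⟩
    refine ⟨2, Subtype.ext ?_⟩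
    rw [Subgroup.mem_closure_singleton] at hx
    obtain ⟨k, rfl⟩ := hx
    show (g ^ k) ^ (2 ^ 2) = 1
    rw [← zpow_natCast, ← zpow_mul, mul_comm, zpow_mul, zpow_natCast]
    norm_num [hg]
  have hnn : Subgroup.closure {g} ≤ Subgroup.normalizer (M : Set G) := by
    rw [Subgroup.closure_le, Set.singleton_subset_iff]
    exact hgn
  obtain ⟨f1, f2⟩ := sup_fin ⟨r1, r2⟩ ⟨hfZ, hpZ⟩ hnn
  have f3 := (sup_card hnn).trans (Nat.mul_le_mul hcZ r3)
  have hle : Subgroup.closure {t, g} ≤ Subgroup.closure {g} ⊔ M := by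
    rw [Subgroup.closure_le]
    rintro x (rfl | hx)
    · exact Subgroup.mem_sup_right m0
    · exact Subgroup.mem_sup_left (Subgroup.subset_closure hx)
  refine ⟨Set.Finite.to_subtype ((Set.toFinite _).subset hle), f2.to_le hle, ?_⟩
  refine ((Nat.card_mono (Set.toFinite _) hle).trans f3).trans ?_
  norm_num

end Pool.Agent.Results.MP_da62d3_al.InvolutionAndOrderFour
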